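import Pool.Agent.K1H54.GC2.H
import Pool.Agent.K1H37.GC.Dual
import Pool.Agent.K1H36.GC.Sqc
import Pool.Agent.K1H59.GC.Mom3
import Pool.Agent.K1H40.GC.Zq
import Pool.Agent.K1H88.GC.Sqf2
import Pool.Agent.K1H1.GC.Int
import Pool.Agent.K1H29.GC.Sand

/-!
# The Good–Churchhouse variance for almost all real twists of the Möbius function

For almost all primes `p ≤ Q` the real function `μ(n) (n | p)` has the variance predicted by Good and Churchhouse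
in short intervals, with a power saving, uniformly for `Q ^ ε ≤ X`, `1 ≤ H ≤ X ^ (1 - ε)`, `H X ≤ Q ^ (1 - ε)`.

Dated 26 November 2026.
-/

set_option autoImplicit false

namespace Pool.Agent.Results.MP_0575cc_nt.AlmostAllRealTwists

open Finset

/-- the sum of `μ(n) (n | p)` over the integers `n ≥ 0` with `|n - x| < H / 2` (the range of the sum only makes it
finite; `μ(0) = 0`); `(n | p)` is the Jacobi symbol, for an odd prime `p` the Legendre symbol -/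
noncomputable def M (p : ℕ) (x H : ℝ) : ℝ :=
  ∑ n ∈ (range (⌈x + H⌉₊ + 1)).filter (fun n : ℕ => |(n : ℝ) - x| < H / 2),
    ((ArithmeticFunction.moebius n : ℤ) : ℝ) * (jacobiSym (n : ℤ) p : ℝ)

/-- the variance: the mean value of `M p x H ^ 2` over `X ≤ x ≤ 2 X` -/
noncomputable def V (p : ℕ) (X H : ℝ) : ℝ := (1 / X) * ∫ x in X..2 * X, (M p x H) ^ 2

/-- the odd primes `p ≤ Q` for which the variance differs from `6 / π² * H` by more than `C * H * X ^ (-δ)` for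
some `X`, `H` with `Q ^ ε ≤ X`, `1 ≤ H ≤ X ^ (1 - ε)`, `H * X ≤ Q ^ (1 - ε)` -/
def Exceptional (Q : ℕ) (ε δ C : ℝ) : Set ℕ :=
  {p | p.Prime ∧ p ≠ 2 ∧ p ≤ Q ∧ ∃ X H : ℝ, (Q : ℝ) ^ ε ≤ X ∧ 1 ≤ H ∧ H ≤ X ^ (1 - ε) ∧
    H * X ≤ (Q : ℝ) ^ (1 - ε) ∧ C * (H * X ^ (-δ)) < |V p X H - 6 / Real.pi ^ 2 * H|}

theorem V_eq (p : ℕ) (X H : ℝ) : V p X H = Pool.Agent.K1H54.GC2.VR p X H := rfl

theorem result (ε : ℝ) (hε : 0 < ε) : ∃ δ C : ℝ, 0 < δ ∧ ∀ Q : ℕ, 1 ≤ Q →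
    ((Exceptional Q ε δ C).ncard : ℝ) ≤ C * (Q : ℝ) ^ (1 - δ) := by
  classical
  obtain ⟨e, he⟩ : ∃ e : ℝ, e = min ε (1 / 2) := ⟨_, rfl⟩
  have he0 : 0 < e := by rw [he]; exact lt_min hε (by norm_num)
  have he1 : e ≤ ε := by rw [he]; exact min_le_left _ _
  have he2 : e ≤ 1 / 2 := by rw [he]; exact min_le_right _ _
  obtain ⟨δ, C, hδ, h⟩ := Pool.Agent.K1H54.GC2.main3
    (Pool.Agent.K1H59.GC.t_MOM3 Pool.Agent.K1H37.GC.t_DUAL Pool.Agent.K1H36.GC.t_SQC) Pool.Agent.K1H40.GC.t_ZQ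
    Pool.Agent.K1H88.GC.t_SQF2 (Pool.Agent.K1H29.GC.t_SAND Pool.Agent.K1H1.GC.t_INT) he0 he2
  refine ⟨δ, C, hδ, fun Q hQ => ?_⟩
  refine le_trans ?_ (h Q hQ)
  rw [← Set.ncard_coe_finset]
  have hq1 : (1 : ℝ) ≤ Q := by exact_mod_cast hQ
  have hsub : Exceptional Q ε δ C ⊆ (((Icc 1 Q).filter
      (fun p => p.Prime ∧ p ≠ 2 ∧ Pool.Agent.K1H54.GC2.Dev3 Q p e δ C) : Finset ℕ) : Set ℕ) := by
    rintro p ⟨hp, hp2, hpQ, X, H, h1, h2, h3, h4, h5⟩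
    rw [Finset.coe_filter]
    refine ⟨Finset.mem_Icc.2 ⟨hp.one_lt.le, hpQ⟩, hp, hp2, X, H, ?_, h2, ?_, ?_, h5⟩
    · exact (Real.rpow_le_rpow_of_exponent_le hq1 he1).trans h1
    · have hX1 : 1 ≤ X := (Real.one_le_rpow hq1 hε.le).trans h1
      exact h3.trans (Real.rpow_le_rpow_of_exponent_le hX1 (by linarith))
    · exact h4.trans (Real.rpow_le_rpow_of_exponent_le hq1 (by linarith))
  exact_mod_cast Set.ncard_le_ncard hsub (Finset.finite_toSet _)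

end Pool.Agent.Results.MP_0575cc_nt.AlmostAllRealTwists
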