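import Pool.Agent.K1H70.GC.Fin

/-!
# The mean of the Good-Churchhouse variance over the scales

Let `V(X; H) = (1/X) ∫_X^{2X} |M(x; H)|² dx`, `M(x; H)` the sum of `μ(n)` over `|n - x| < H/2`. The
conjecture says `V(X; H) ∼ H / ζ(2)` for `X^ε < H < X^(1-ε)`. We show, without any hypothesis, that in
the mean over the scales `X` in `[T^a, T^b]`, `1 < a`, `a + 1 < b`, with `H ≈ X / T`, the variance
`V(X; H)` is at least of the conjectured order: for the measure `dH/H dX/X` on the region `T^a ≤ X ≤ T^b`,
`X/(16T) ≤ H ≤ 4X/T`, of total mass `(b - a) log 64 · log T`, the integral of `V(X; H) / H` is at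
least `c log T`.

The starting file `VarianceLowerBound` gives one `X` (and one `H`) in such a region with
`V(X; H) ≥ c H`. Its proof assumes `V(X; H) ≤ δ H` in the whole region. Here the tail `f_b - f_a` of
the smoothed partial sums of `1/ζ` is bounded directly by the mean of the variance over all the
scales:

* Plancherel's formula (`GC/PL.lean`) bounds the mean square of `f_b - f_a` at height `T` by
  the integral over all `x` of the squares of the sums over `x < n ≤ x e^(1/8T)`, with weight `x^(-2σ-1)`;
* these are differences at a fixed ratio, and the Saffari-Vaughan averaging over the distances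
  `h` in `[x/T, 2x/T]` is made for every `x` separately and integrated over all scales at once
  (`K1H70/GC/Sub.lean`, `Sub2.lean`), so that no supremum over the scales is needed;
* Tonelli's theorem gives the mean of `V(X; H)` (`Var.lean`, `RealInt.lean`).

Then the mollified mean value argument of the starting library (`GC/M1.lean`, `L2.lean`, `B7.lean`)
shows that this mean cannot be small.
-/

set_option autoImplicit false

open MeasureTheory

namespace Pool.Agent.Results.MP_0575cc_nt.MeanOverScales

/-- `M(x; H)`, the sum of `μ(n)` over the `n ≥ 1` with `|n - x| < H / 2` (the term `n = 0` is `0`) -/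
noncomputable def M (x H : ℝ) : ℝ :=
  ∑ n ∈ (Finset.range (⌈x + H⌉₊ + 1)).filter (fun n : ℕ => |(n : ℝ) - x| < H / 2),
    ((ArithmeticFunction.moebius n : ℤ) : ℝ)

/-- `V(X; H)`, the mean of `M(x; H)²` over `X ≤ x ≤ 2X` -/
noncomputable def V (X H : ℝ) : ℝ := (1 / X) * ∫ x in X..2 * X, M x H ^ 2

/-- For `1 < a` and `a + 1 < b` there are `c > 0` and `T₀` such that for all `T ≥ T₀` the integral of
`V(X; H) / H` over `T^a ≤ X ≤ T^b`, `X / (16 T) ≤ H ≤ 4 X / T`, with respect to `dH/H dX/X`, is at least
`c log T`. -/
theorem result (a b : ℝ) (ha : 1 < a) (hab : a + 1 < b) :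
    ∃ c T₀ : ℝ, 0 < c ∧ 1 < T₀ ∧ ∀ T : ℝ, T₀ ≤ T →
      c * Real.log T ≤
        ∫ X in (T ^ a)..(T ^ b), (∫ H in (X / (16 * T))..(4 * X / T), V X H / H / H) / X := by
  obtain ⟨c, T₀, hc, hT₀, h⟩ := Pool.Agent.K1H70.GC.main3 a b ha hab
  refine ⟨c, T₀, hc, hT₀, fun T hT => (h T hT).trans (le_of_eq ?_)⟩
  congr 1
  funext X
  congr 2
  funext H
  rw [div_div, ← sq]
  rfl

end Pool.Agent.Results.MP_0575cc_nt.MeanOverScales
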