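import Pool.Agent.K1H88.GT.Main2

/-!
# The Good-Churchhouse law for `μ(n) e(α P(n))`

For every integer polynomial `P` of degree at least two and all real `α` outside a set of Hausdorff dimension less
than one the function `μ(n) e(α P(n))` satisfies the law `V(X;H) ~ (6/π²) H` with a power saving, for all
`X ≥ X0(α, P, ε)` and, simultaneously, all `1 ≤ H ≤ X^{1-ε}`. In particular, for almost every `α`, the statement
of the question holds for it.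

Pieces by helpers 3, 10, 40, 58, 75, 96, 97 (see `Pool/Agent/K1H88/GT`). The correlations are bounded in mean
square over `α` (over the interval `[0, 1]`, and over well spaced points) by the number of solutions of
`P(m) - P(m-h) = P(m') - P(m'-h')`; a recursion in the length of the window gives the variance from the
correlations; coverings by short intervals give the Hausdorff dimension.
-/

set_option autoImplicit false

namespace Pool.Agent.Results.MP_0575cc_nt.PolynomialPhases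

open Finset MeasureTheory

/-- the sum of `a n` over the integers `n ≥ 0` with `|n - x| < H / 2` (the finite range contains all of them) -/
noncomputable def M (a : ℕ → ℂ) (x H : ℝ) : ℂ :=
  ∑ n ∈ (range (⌈x + H⌉₊ + 1)).filter (fun n : ℕ => |(n : ℝ) - x| < H / 2), a n

/-- the mean square of `M a x H` over `X ≤ x ≤ 2 X` -/
noncomputable def V (a : ℕ → ℂ) (X H : ℝ) : ℝ := (1 / X) * ∫ x in X..2 * X, ‖M a x H‖ ^ 2

/-- the function `μ(n) e(α P(n))`, where `e(y) = exp(2πiy)` -/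
noncomputable def phase (P : Polynomial ℤ) (α : ℝ) (n : ℕ) : ℂ :=
  ((ArithmeticFunction.moebius n : ℤ) : ℂ) *
    Complex.exp (2 * Real.pi * Complex.I * (α * ((P.eval (n : ℤ) : ℤ) : ℝ) : ℝ))

/-- a.e. `α`, all `P`, all `ε` -/
theorem law : ∀ ε : ℝ, 0 < ε → ∃ δ : ℝ, 0 < δ ∧ ∀ᵐ α : ℝ, ∀ P : Polynomial ℤ, 2 ≤ P.natDegree →
      ∃ X0 : ℝ, 1 ≤ X0 ∧ ∀ X H : ℝ, X0 ≤ X → 1 ≤ H → H ≤ X ^ (1 - ε) →
        |V (phase P α) X H - 6 / Real.pi ^ 2 * H| ≤ H * X ^ (-δ) :=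
  Pool.Agent.K1H88.GT.main_p

open Filter in
/-- the statement of the question -/
theorem question : ∀ᵐ α : ℝ, ∀ P : Polynomial ℤ, 2 ≤ P.natDegree → ∀ ε : ℝ, 0 < ε → ∀ Hf : ℝ → ℝ,
    (∀ᶠ X in atTop, X ^ ε < Hf X ∧ Hf X < X ^ (1 - ε)) →
      Tendsto (fun X => V (phase P α) X (Hf X) / (Hf X / (Real.pi ^ 2 / 6))) atTop (nhds 1) := by
  have h : ∀ k : ℕ, ∀ᵐ α : ℝ, ∃ δ : ℝ, 0 < δ ∧ ∀ P : Polynomial ℤ, 2 ≤ P.natDegree →
      ∃ X0 : ℝ, 1 ≤ X0 ∧ ∀ X H : ℝ, X0 ≤ X → 1 ≤ H → H ≤ X ^ (1 - 1 / ((k : ℝ) + 1)) →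
        |V (phase P α) X H - 6 / Real.pi ^ 2 * H| ≤ H * X ^ (-δ) := by
    intro k
    obtain ⟨δ, hδ, h⟩ := law (1 / ((k : ℝ) + 1)) (by positivity)
    filter_upwards [h] with α hα
    exact ⟨δ, hδ, hα⟩
  rw [← ae_all_iff] at h
  filter_upwards [h] with α hα
  intro P hP ε hε Hf hHf
  obtain ⟨k, hk⟩ := exists_nat_one_div_lt hε
  obtain ⟨δ, hδ, h1⟩ := hα k
  obtain ⟨X0, hX0, h2⟩ := h1 P hP
  have hpi : 0 < Real.pi ^ 2 := by positivity
  rw [tendsto_iff_norm_sub_tendsto_zero]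
  have h3 : Tendsto (fun X : ℝ => Real.pi ^ 2 / 6 * X ^ (-δ)) atTop (nhds 0) := by
    have := (tendsto_rpow_neg_atTop hδ).const_mul (Real.pi ^ 2 / 6)
    simpa using this
  refine squeeze_zero' (Eventually.of_forall fun X => norm_nonneg _) ?_ h3
  filter_upwards [hHf, eventually_ge_atTop X0] with X hX hXX
  have hX1 : 1 ≤ X := hX0.trans hXX
  have hH1 : 1 ≤ Hf X := (Real.one_le_rpow hX1 hε.le).trans hX.1.le
  have hH0 : 0 < Hf X := by linarith
  have h4 := h2 X (Hf X) hXX hH1 (hX.2.le.trans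
    (Real.rpow_le_rpow_of_exponent_le hX1 (by linarith)))
  have h5 : V (phase P α) X (Hf X) / (Hf X / (Real.pi ^ 2 / 6)) - 1 =
      (V (phase P α) X (Hf X) - 6 / Real.pi ^ 2 * Hf X) * (Real.pi ^ 2 / 6 / Hf X) := by
    field_simp
  rw [h5, norm_mul, Real.norm_eq_abs, Real.norm_eq_abs, abs_of_pos (by positivity : 0 < Real.pi ^ 2 / 6 / Hf X)]
  calc |V (phase P α) X (Hf X) - 6 / Real.pi ^ 2 * Hf X| * (Real.pi ^ 2 / 6 / Hf X)
      ≤ (Hf X * X ^ (-δ)) * (Real.pi ^ 2 / 6 / Hf X) := by gcongr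
    _ = Real.pi ^ 2 / 6 * X ^ (-δ) := by field_simp

/-- the exceptional `α` for the polynomial `P`: the law fails for arbitrarily large `X` -/
def Exceptional (P : Polynomial ℤ) (ε δ : ℝ) : Set ℝ :=
  {α | ¬ ∃ X0 : ℝ, 1 ≤ X0 ∧ ∀ X H : ℝ, X0 ≤ X → 1 ≤ H → H ≤ X ^ (1 - ε) →
    |V (phase P α) X H - 6 / Real.pi ^ 2 * H| ≤ H * X ^ (-δ)}

open Filter in
theorem result :
    (∀ ε : ℝ, 0 < ε → ∃ δ : ℝ, 0 < δ ∧ ∀ P : Polynomial ℤ, 2 ≤ P.natDegree →
      dimH (Exceptional P ε δ) ≤ ENNReal.ofReal (1 - min ε (1 / 4) / (8 * P.natDegree))) ∧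
    (∀ᵐ α : ℝ, ∀ P : Polynomial ℤ, 2 ≤ P.natDegree → ∀ ε : ℝ, 0 < ε → ∀ Hf : ℝ → ℝ,
      (∀ᶠ X in atTop, X ^ ε < Hf X ∧ Hf X < X ^ (1 - ε)) →
        Tendsto (fun X => V (phase P α) X (Hf X) / (Hf X / (Real.pi ^ 2 / 6))) atTop (nhds 1)) :=
  ⟨Pool.Agent.K1H88.GT.main_hd, question⟩

end Pool.Agent.Results.MP_0575cc_nt.PolynomialPhases
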