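import Pool.Agent.K1H98.RM.Fin2
import Pool.Agent.K1H96.RM.Cnt
import Pool.Agent.K1H38.RM.Mom
import Pool.Agent.K1H59.RM.Sand
import Pool.Agent.K1H1.RM.Good
import Pool.Agent.K1H96.GC.Sqf

/-!
# The Good–Churchhouse conjecture holds almost surely in the random model of the Möbius function

Let `s 0, s 1, ...` be independent random signs and let `f` be the random multiplicative function supported on the
squarefree numbers with `f(p) = s p` (Wintner's model of `μ`). Almost surely, the statement of the Good–Churchhouse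
conjecture holds with `f` in place of `μ`, with a power saving and uniformly for `1 ≤ H ≤ X ^ (1 - ε)`.

Dated 26 November 2026.
-/

set_option autoImplicit false

namespace Pool.Agent.Results.MP_0575cc_nt.RandomModel

open MeasureTheory ProbabilityTheory Filter

/-- independent random signs: independent random variables which take the value `1` with probability `1 / 2` and
the value `-1` otherwise -/
structure RandomSigns {Ω : Type} [MeasurableSpace Ω] (P : Measure Ω) (s : ℕ → Ω → ℝ) : Prop where
  measurable : ∀ n, Measurable (s n)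
  independent : iIndepFun s P
  signs : ∀ n ω, s n ω = 1 ∨ s n ω = -1
  fair : ∀ n, P {ω | s n ω = 1} = 1 / 2

/-- the multiplicative function supported on the squarefree numbers with the value `s p` at the prime `p`; it is the
Möbius function if all `s p` are `-1` -/
noncomputable def mult (s : ℕ → ℝ) (n : ℕ) : ℝ :=
  if Squarefree n then ∏ p ∈ n.primeFactors, s p else 0

/-- the variance `V(X;H)` of the problem for the function `f` in place of `μ` -/
noncomputable def V (f : ℕ → ℝ) (X H : ℝ) : ℝ :=
  (1 / X) * ∫ x in X..2 * X,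
    (∑ n ∈ (Finset.range (⌈x + H⌉₊ + 1)).filter (fun n : ℕ => |(n : ℝ) - x| < H / 2), f n) ^ 2

theorem V_eq (f : ℕ → ℝ) (X H : ℝ) : V f X H = Pool.Agent.K1H98.RM.VV f X H := rfl

theorem mult_eq (s : ℕ → ℝ) : mult s = Pool.Agent.K1H98.RM.ff s := rfl

theorem signs_of {Ω : Type} [MeasurableSpace Ω] {P : Measure Ω} [IsProbabilityMeasure P]
    {s : ℕ → Ω → ℝ} (h : RandomSigns P s) : Pool.Agent.K1H98.RM.Signs P s := by
  refine ⟨h.measurable, h.independent, h.signs, fun n => ?_⟩
  have hA : MeasurableSet {ω | s n ω = 1} := h.measurable n (measurableSet_singleton 1)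
  have e : (fun ω => s n ω) = fun ω => 2 * ({ω | s n ω = 1}.indicator (fun _ => (1 : ℝ)) ω) - 1 := by
    funext ω
    by_cases h1 : s n ω = 1
    · rw [Set.indicator_of_mem (by exact h1), h1]; norm_num
    · rw [Set.indicator_of_notMem (by exact h1), (h.signs n ω).resolve_left h1]; norm_num
  rw [e, integral_sub (((integrable_const (1 : ℝ)).indicator hA).const_mul 2) (integrable_const 1),
    integral_const_mul, integral_indicator_const _ hA, integral_const, measureReal_def, h.fair n]
  simp

/-- **Theorem.** (1) For every `ε > 0` there is `δ > 0` such that for all independent random signs `s n` almost surely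
`|V(X;H) - (6 / π²) H| ≤ H X ^ (-δ)` for all large `X` and all `1 ≤ H ≤ X ^ (1 - ε)`, where `V` is the variance of
the problem for the random multiplicative function `f = mult s` in place of `μ`. (2) Almost surely the conjecture
holds for `f`, for all `ε` and all functions `H` of the problem at the same time. -/
theorem result :
    (∀ ε : ℝ, 0 < ε → ∃ δ : ℝ, 0 < δ ∧ ∀ (Ω : Type) [MeasurableSpace Ω] (P : Measure Ω)
      [IsProbabilityMeasure P] (s : ℕ → Ω → ℝ), RandomSigns P s →
      ∀ᵐ ω ∂P, ∃ X₀ : ℝ, ∀ X H : ℝ, X₀ ≤ X → 1 ≤ H → H ≤ X ^ (1 - ε) →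
        |V (mult fun n => s n ω) X H - 6 / Real.pi ^ 2 * H| ≤ H * X ^ (-δ)) ∧
    ∀ (Ω : Type) [MeasurableSpace Ω] (P : Measure Ω) [IsProbabilityMeasure P] (s : ℕ → Ω → ℝ),
      RandomSigns P s → ∀ᵐ ω ∂P, ∀ ε : ℝ, 0 < ε → ∀ H : ℝ → ℝ,
        (∀ᶠ X in atTop, X ^ ε < H X ∧ H X < X ^ (1 - ε)) →
        Tendsto (fun X => V (mult fun n => s n ω) X (H X) / (H X / (Real.pi ^ 2 / 6))) atTop (nhds 1) := by
  have hG := Pool.Agent.K1H1.RM.t_GOOD Pool.Agent.K1H59.RM.t_SAND
  constructor
  · intro ε hε
    obtain ⟨δ, hδ, h⟩ := Pool.Agent.K1H98.RM.main1 Pool.Agent.K1H96.RM.t_CNT Pool.Agent.K1H38.RM.t_MOM hG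
      Pool.Agent.K1H96.GC.t_SQF hε
    exact ⟨δ, hδ, fun Ω _ P _ s hs => h (signs_of hs)⟩
  · intro Ω _ P _ s hs
    exact Pool.Agent.K1H98.RM.main2 Pool.Agent.K1H96.RM.t_CNT Pool.Agent.K1H38.RM.t_MOM hG
      Pool.Agent.K1H96.GC.t_SQF (signs_of hs)

end Pool.Agent.Results.MP_0575cc_nt.RandomModel
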